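import Pool.Agent.MP_5159fa_co.Mg.Conf

set_option autoImplicit false

namespace Pool.Agent.Results.MP_5159fa_co.LargeGirth

/-- There is a girth bound `g` such that every finite graph of girth at least `g` with a proper
3-edge-colouring has its edges split into two matchings and three induced matchings. -/
theorem result :
    ∃ g : ℕ, ∀ (V : Type) [Fintype V] (G : SimpleGraph V), (g : ℕ∞) ≤ G.egirth →
      (∃ c : Sym2 V → Fin 3,
        ∀ e ∈ G.edgeSet, ∀ f ∈ G.edgeSet, e ≠ f → (∃ v : V, v ∈ e ∧ v ∈ f) → c e ≠ c f) →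
      ∃ c : Sym2 V → Fin 5,
        ∀ e ∈ G.edgeSet, ∀ f ∈ G.edgeSet, e ≠ f → c e = c f →
          (¬ ∃ v : V, v ∈ e ∧ v ∈ f) ∧
          ((2 : Fin 5) ≤ c e → ¬ ∃ u v : V, u ∈ e ∧ v ∈ f ∧ G.Adj u v) :=
  Pool.Agent.MP_5159fa_co.main

end Pool.Agent.Results.MP_5159fa_co.LargeGirth
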